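import Pool.Agent.R627.AC.Stm

/-!
Project AC, piece AC10: coefficients of a composition with a Schwarz function.
-/
namespace Pool.Agent.R627.AC

open PowerSeries Metric Pool.Agent.R194.Baz

lemma comp_anAt {Q : ℂ → ℂ} (hQ : An Q) : AnalyticAt ℂ Q 0 :=
  hQ.analyticAt (isOpen_ball.mem_nhds (mem_ball_self one_pos))

lemma comp_dslope {Q : ℂ → ℂ} (hQ : An Q) : An (dslope Q 0) :=
  (Complex.differentiableOn_dslope (isOpen_ball.mem_nhds (mem_ball_self one_pos))).2 hQ

lemma comp_dslope_eq (Q : ℂ → ℂ) (w : ℂ) : Q w = Q 0 + w * dslope Q 0 w := by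
  have := sub_smul_dslope Q 0 w
  rw [sub_zero, smul_eq_mul] at this
  rw [this]; ring

/-- iterated remainders of the Taylor expansion, also after a substitution -/
lemma comp_rem (Q : ℂ → ℂ) (hQ : An Q) (ω : ℂ → ℂ) (hω : An ω) (h0 : ω 0 = 0) (n : ℕ) :
    ∃ R : ℂ → ℂ, An R ∧
      tay Q = ∑ j ∈ Finset.range n, PowerSeries.C (coeff j (tay Q)) * X ^ j + X ^ n * tay R ∧
      tay (fun z => Q (ω z)) = ∑ j ∈ Finset.range n, PowerSeries.C (coeff j (tay Q)) * tay ω ^ j +
        tay ω ^ n * tay (fun z => R (ω z)) := by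
  induction n with
  | zero => exact ⟨Q, hQ, by simp, by simp⟩
  | succ n ih =>
    obtain ⟨R, hR, h1, h2⟩ := ih
    have hc : coeff n (tay Q) = R 0 := by
      have := congrArg (coeff n) h1
      rw [this, map_add, map_sum]
      rw [Finset.sum_eq_zero, zero_add, coeff_X_pow_mul', if_pos le_rfl, Nat.sub_self,
        coeff_zero_eq_constantCoeff_apply, tay_zero]
      intro j hj
      rw [coeff_C_mul, coeff_X_pow, if_neg (by simpa using (Finset.mem_range.1 hj).ne'), mul_zero]
    have hD := comp_dslope hR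
    have hωa := comp_anAt hω
    have hDω : AnalyticAt ℂ (fun z => dslope R 0 (ω z)) 0 := by
      have h3 : AnalyticAt ℂ (dslope R 0) (ω 0) := by rw [h0]; exact comp_anAt hD
      exact h3.fun_comp hωa
    have e1 : tay R = PowerSeries.C (R 0) + X * tay (dslope R 0) := by
      rw [← tay_const, ← tay_id, ← tay_mul (f := fun z => z) analyticAt_id (comp_anAt hD),
        ← tay_add (g := fun z => z * dslope R 0 z) analyticAt_const
          (analyticAt_id.mul (comp_anAt hD))]
      exact congrArg tay (funext fun z => comp_dslope_eq R z)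
    have e2 : tay (fun z => R (ω z)) = PowerSeries.C (R 0) +
        tay ω * tay (fun z => dslope R 0 (ω z)) := by
      rw [← tay_const, ← tay_mul hωa hDω, ← tay_add (g := fun z => ω z * dslope R 0 (ω z))
        analyticAt_const (hωa.mul hDω)]
      exact congrArg tay (funext fun z => comp_dslope_eq R (ω z))
    refine ⟨dslope R 0, hD, ?_, ?_⟩
    · rw [Finset.sum_range_succ, hc]
      conv_lhs => rw [h1, e1]
      ring
    · rw [Finset.sum_range_succ, hc]
      conv_lhs => rw [h2, e2]
      ring

theorem comp (hT : StToep) : StComp := by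
  intro Q ω Z hQ hω h0 hle hZ m
  set b := dslope ω 0 with hb
  have hbA : An b := comp_dslope hω
  have hb1 : ∀ z ∈ ball (0:ℂ) 1, ‖b z‖ ≤ 1 := by
    intro z hz
    by_cases hz0 : z = 0
    · subst hz0
      rw [hb, dslope_same]
      refine HasDerivAt.le_of_lip' (comp_anAt hω).differentiableAt.hasDerivAt zero_le_one ?_
      filter_upwards [isOpen_ball.mem_nhds (mem_ball_self (x := (0:ℂ)) one_pos)] with x hx
      rw [h0, sub_zero, sub_zero, one_mul]
      exact hle x hx
    · have h := comp_dslope_eq ω z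
      rw [h0, zero_add, ← hb] at h
      have h2 := hle z hz
      rw [h, norm_mul] at h2
      have h3 : 0 < ‖z‖ := norm_pos_iff.2 hz0
      nlinarith
  have hω' : tay ω = X * tay b := by
    rw [← tay_id, ← tay_mul (f := fun z => z) analyticAt_id (comp_anAt hbA)]
    refine congrArg tay (funext fun z => ?_)
    have := comp_dslope_eq ω z
    rw [h0, zero_add] at this
    exact this
  have hpow : ∀ j : ℕ, tay b ^ j = tay (fun z => b z ^ j) := by
    intro j
    induction j with
    | zero => simp only [pow_zero]; rw [tay_const]; simp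
    | succ j ih =>
      rw [pow_succ, ih, ← tay_mul (f := fun z => b z ^ j) ((comp_anAt hbA).pow j) (comp_anAt hbA)]
      exact congrArg tay (funext fun z => (pow_succ _ _).symm)
  obtain ⟨R, hR, -, h2⟩ := comp_rem Q hQ ω hω h0 (m + 1)
  have e : coeff m (Z * Z * tay (fun z => Q (ω z))) = ∑ j ∈ Finset.range (m + 1),
      coeff j (tay Q) * coeff (m - j) (Z * Z * tay (fun z => b z ^ j)) := by
    rw [h2, mul_add, map_add, Finset.mul_sum, map_sum]
    have t0 : coeff m (Z * Z * (tay ω ^ (m + 1) * tay fun z => R (ω z))) = 0 := by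
      rw [hω', mul_pow, show Z * Z * (X ^ (m + 1) * tay b ^ (m + 1) * tay fun z => R (ω z)) =
        X ^ (m + 1) * (Z * Z * tay b ^ (m + 1) * tay fun z => R (ω z)) by ring,
        coeff_X_pow_mul', if_neg (by omega)]
    rw [t0, add_zero]
    refine Finset.sum_congr rfl fun j hj => ?_
    have hj' : j ≤ m := by simpa [Nat.lt_succ_iff] using hj
    rw [hω', mul_pow, hpow j, show Z * Z * (PowerSeries.C (coeff j (tay Q)) *
      (X ^ j * tay fun z => b z ^ j)) = PowerSeries.C (coeff j (tay Q)) *
      (X ^ j * (Z * Z * tay fun z => b z ^ j)) by ring, coeff_C_mul, coeff_X_pow_mul', if_pos hj']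
  rw [e]
  refine (norm_sum_le _ _).trans (Finset.sum_le_sum fun j hj => ?_)
  have hj' : j ≤ m := by simpa [Nat.lt_succ_iff] using hj
  rw [norm_mul]
  refine mul_le_mul_of_nonneg_left ?_ (norm_nonneg _)
  have := hT (fun z => b z ^ j) Z (hbA.pow j) (fun z hz => by
    rw [norm_pow]; exact pow_le_one₀ (norm_nonneg _) (hb1 z hz)) hZ (m - j)
  rwa [Nat.cast_sub hj'] at this

end Pool.Agent.R627.AC
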